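import Mathlib

set_option autoImplicit false

namespace Pool.Agent.Results.MP_696765_co.Unbounded

/-- The Cayley graph `X(G,H)`: `g` is adjacent to `h * g` for `h ∈ H`. -/
def cayley {G : Type} [Group G] (H : Set G) : SimpleGraph G :=
  SimpleGraph.fromRel fun g g' => ∃ h ∈ H, g' = h * g

section step
variable {Γ ι : Type} [Group Γ] [DecidableEq ι]

open Classical in
noncomputable def shear (a : ι) (A : Set ι) : Equiv.Perm (ι → Γ) where
  toFun b i := if i ∈ A ∧ i ≠ a then b a * b i else b i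
  invFun b i := if i ∈ A ∧ i ≠ a then (b a)⁻¹ * b i else b i
  left_inv b := by funext i; by_cases h : i ∈ A ∧ i ≠ a <;> simp [h]
  right_inv b := by funext i; by_cases h : i ∈ A ∧ i ≠ a <;> simp [h]

def flip (o a : ι) : Equiv.Perm (ι → Γ) where
  toFun b i := b (Equiv.swap o a i)
  invFun b i := b (Equiv.swap o a i)
  left_inv b := by funext i; simp
  right_inv b := by funext i; simp

abbrev Amb (Γ ι : Type) : Type := Equiv.Perm (ι → Γ) × ((ι × Set ι) → Multiplicative (ZMod 2))

def lam : (ι → Γ) →* Amb Γ ι := (MonoidHom.inl _ _).comp (MulAction.toPermHom (ι → Γ) (ι → Γ))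

def rho (o : ι) : Γ →* Amb Γ ι := lam.comp (MonoidHom.mulSingle (fun _ => Γ) o)

open Classical in
noncomputable def tau (o : ι) (j : ι × Set ι) : Amb Γ ι :=
  (shear j.1 j.2 * flip o j.1, Pi.mulSingle j (Multiplicative.ofAdd 1))

open Classical in
lemma tau_conj (o a : ι) (A : Set ι) (ha : a ∈ A) (x : Γ) :
    tau o (a, A) * rho o x = lam (fun i => if i ∈ A then x else 1) * tau o (a, A) := by
  refine Prod.ext ?_ (by simp [tau, rho, lam])
  ext b i
  by_cases hi : i = a
  · subst hi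
    simp [tau, rho, lam, shear, flip, ha]
  · have h1 : Equiv.swap o a i ≠ o := by
      intro h
      exact hi (by simpa using congrArg (Equiv.swap o a) h)
    by_cases hA : i ∈ A <;> simp [tau, rho, lam, shear, flip, hi, hA, h1, mul_assoc]

def gens (o : ι) (H : Set Γ) : Set (Amb Γ ι) := rho o '' H ∪ Set.range (tau o)

def keep (M : Subgroup Γ) : Subgroup (Amb Γ ι) where
  carrier := {p | ∀ b : ι → Γ, (∀ i, p.1 b i ∈ M) ↔ ∀ i, b i ∈ M}
  one_mem' := fun _ => Iff.rfl
  mul_mem' := fun {p q} hp hq b => (hp (q.1 b)).trans (hq b)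
  inv_mem' := fun {p} hp b => by simpa using (hp (p.1⁻¹ b)).symm

lemma tau_keep (M : Subgroup Γ) (o : ι) (j : ι × Set ι) : tau o j ∈ keep M := by
  have h1 : ((shear j.1 j.2, 1) : Amb Γ ι) ∈ keep M := by
    intro b
    have e : (shear j.1 j.2 b) j.1 = b j.1 := by simp [shear]
    constructor
    · intro h i
      have ha := h j.1
      have hi := h i
      rw [show ((shear j.1 j.2, 1) : Amb Γ ι).1 = shear j.1 j.2 from rfl] at ha hi
      rw [e] at ha
      by_cases hc : i ∈ j.2 ∧ i ≠ j.1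
      · have : shear j.1 j.2 b i = b j.1 * b i := by simp [shear, hc]
        rw [this] at hi
        exact (M.mul_mem_cancel_left ha).1 hi
      · have : shear j.1 j.2 b i = b i := by simp only [shear, Equiv.coe_fn_mk, if_neg hc]
        rwa [this] at hi
    · intro h i
      show shear j.1 j.2 b i ∈ M
      simp only [shear, Equiv.coe_fn_mk]
      split_ifs
      · exact M.mul_mem (h _) (h _)
      · exact h _
  have h2 : ((flip o j.1, 1) : Amb Γ ι) ∈ keep M := by
    intro b
    exact ⟨fun h i => by simpa [flip] using h (Equiv.swap o j.1 i), fun h i => h _⟩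
  exact fun b => (keep M).mul_mem h1 h2 b

lemma rho_keep (M : Subgroup Γ) (o : ι) (x : Γ) : rho o x ∈ keep M ↔ x ∈ M := by
  constructor
  · intro h
    simpa [rho, lam] using (h 1).2 (fun _ => M.one_mem) o
  · intro hx b
    have : ∀ i, (rho o x).1 b i ∈ M ↔ b i ∈ M := by
      intro i
      by_cases hi : i = o
      · subst hi
        simpa [rho, lam] using M.mul_mem_cancel_left hx
      · simp [rho, lam, hi]
    exact forall_congr' this

lemma gens_indep (o : ι) (H : Set Γ) (hH : ∀ h ∈ H, h ∉ Subgroup.closure (H \ {h})) :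
    ∀ p ∈ gens o H, p ∉ Subgroup.closure (gens o H \ {p}) := by
  classical
  rintro p (⟨h, hh, rfl⟩ | ⟨j, rfl⟩) hp
  · have : Subgroup.closure (gens o H \ {rho o h}) ≤ keep (Subgroup.closure (H \ {h})) := by
      rw [Subgroup.closure_le]
      rintro q ⟨⟨x, hx, rfl⟩ | ⟨j, rfl⟩, hq⟩
      · exact (rho_keep _ o x).2 (Subgroup.subset_closure ⟨hx, fun e => hq (congrArg _ e)⟩)
      · exact tau_keep _ o j
    exact hH h hh ((rho_keep _ o h).1 (this hp))
  · have : Subgroup.closure (gens o H \ {tau o j}) ≤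
        ((Pi.evalMonoidHom (fun _ => Multiplicative (ZMod 2)) j).comp
          (MonoidHom.snd _ _) : Amb Γ ι →* _).ker := by
      rw [Subgroup.closure_le]
      rintro q ⟨⟨x, -, rfl⟩ | ⟨j', rfl⟩, hq⟩
      · simp [rho, lam]
      · have : j ≠ j' := fun e => hq (by rw [e]; rfl)
        simp [tau, this]
    have h1 := this hp
    simp [tau] at h1

end step

theorem ambient (k : ℕ) : ∃ (Γ : Type) (_ : Group Γ) (_ : Finite Γ) (H : Set Γ),
    (∀ h ∈ H, h ∉ Subgroup.closure (H \ {h})) ∧
    ∀ c : Γ → Fin k, ∃ g, ∃ h ∈ H, c g = c (h * g) := by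
  classical
  induction k with
  | zero => exact ⟨Unit, inferInstance, inferInstance, ∅, by simp, fun c => (c ()).elim0⟩
  | succ k ih =>
    obtain ⟨Γ, _, _, H, hH, hc⟩ := ih
    obtain ⟨ι, _, hι⟩ := Combinatorics.Line.exists_mono_in_high_dimension Γ (Fin (k + 1))
    obtain ⟨o, -⟩ := (hι fun _ => 0).choose.proper
    refine ⟨Amb Γ ι, inferInstance, inferInstance, gens o H, gens_indep o H hH, fun c => ?_⟩
    obtain ⟨l, c0, hl⟩ := hι fun b => c (lam b)
    obtain ⟨a, ha⟩ := l.proper
    let j : ι × Set ι := (a, {i | l.idxFun i = none})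
    let φ : Γ → Amb Γ ι := fun v => rho o v * ((tau o j)⁻¹ * lam (l 1))
    have key : ∀ v, tau o j * φ v = lam (l v) := by
      intro v
      rw [← mul_assoc, tau_conj o a _ ha, mul_assoc, mul_inv_cancel_left, ← map_mul]
      congr 1
      funext i
      rcases h : l.idxFun i with _ | y <;> simp [Combinatorics.Line.toFun, h]
    by_cases h0 : ∃ v, c (φ v) = c0
    · obtain ⟨v, hv⟩ := h0
      exact ⟨φ v, tau o j, Or.inr ⟨j, rfl⟩, by rw [key, hv]; exact (hl v).symm⟩
    · push Not at h0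
      choose c' hc' using fun v => Fin.exists_succAbove_eq (h0 v)
      obtain ⟨g, h, hh, e⟩ := hc c'
      refine ⟨φ g, rho o h, Or.inl ⟨h, hh, rfl⟩, ?_⟩
      rw [← hc', e, hc']
      simp only [φ, map_mul, mul_assoc]

theorem result (m : ℕ) : ∃ (G : Type) (_ : Group G) (_ : Finite G) (H : Set G),
    1 ∉ H ∧ Subgroup.closure H = ⊤ ∧ (∀ h ∈ H, Subgroup.closure (H \ {h}) ≠ ⊤) ∧
    (∃ r : H → H → Prop, IsWellOrder H r ∧
      ∀ h : H, (h : G) ∉ Subgroup.closure (Subtype.val '' {h' : H | r h' h})) ∧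
    (m : ℕ∞) < (cayley H).chromaticNumber := by
  obtain ⟨Γ, _, _, H, hH, hc⟩ := ambient m
  let G := Subgroup.closure H
  have ind : ∀ h : G, h.1 ∈ H → h ∉ Subgroup.closure ((G.subtype ⁻¹' H) \ {h}) := by
    intro h hh hm
    apply hH h.1 hh
    have := Subgroup.mem_map_of_mem G.subtype hm
    rw [MonoidHom.map_closure] at this
    refine Subgroup.closure_mono ?_ this
    rintro _ ⟨x, ⟨hx, hne⟩, rfl⟩
    exact ⟨hx, fun e => hne (Subtype.ext e)⟩
  have h1 : (1 : G) ∉ G.subtype ⁻¹' H := fun h => ind 1 h (Subgroup.one_mem _)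
  refine ⟨G, inferInstance, inferInstance, G.subtype ⁻¹' H, h1,
    Subgroup.closure_preimage_eq_top H, fun h hh e => ind h hh (e ▸ Subgroup.mem_top _),
    ⟨WellOrderingRel, inferInstance, fun h hm => ind h.1 h.2 (Subgroup.closure_mono ?_ hm)⟩, ?_⟩
  · rintro _ ⟨x, hx, rfl⟩
    refine ⟨x.2, fun e => ?_⟩
    have : x = h := Subtype.ext e
    subst this
    exact irrefl_of WellOrderingRel x hx
  · by_contra hle
    obtain ⟨C⟩ := SimpleGraph.chromaticNumber_le_iff_colorable.1 (not_lt.1 hle)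
    let rep : Γ → Γ := fun g => (Quotient.mk (QuotientGroup.rightRel G) g).out
    have hrep : ∀ g, g * (rep g)⁻¹ ∈ G := fun g =>
      QuotientGroup.rightRel_apply.1 (Quotient.mk_out (s := QuotientGroup.rightRel G) g)
    obtain ⟨g, h, hh, e⟩ := hc fun g => C ⟨g * (rep g)⁻¹, hrep g⟩
    have hG : h ∈ G := Subgroup.subset_closure hh
    have hr : rep (h * g) = rep g := by
      refine congrArg Quotient.out (Quotient.sound ?_)
      exact QuotientGroup.rightRel_apply.2 (by simpa using hG)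
    have e2 : (⟨h * g * (rep (h * g))⁻¹, hrep _⟩ : G) = ⟨h, hG⟩ * ⟨g * (rep g)⁻¹, hrep g⟩ :=
      Subtype.ext (by simp [hr, mul_assoc])
    refine C.valid ?_ e
    rw [e2]
    refine ⟨fun e3 => h1 ?_, Or.inl ⟨⟨h, hG⟩, hh, rfl⟩⟩
    have : (⟨h, hG⟩ : G) = 1 := by simpa using e3
    rw [← this]
    exact hh

end Pool.Agent.Results.MP_696765_co.Unbounded
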